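import Pool.Agent.LE.StmtsB
import Pool.Agent.Helper6_Mob.Sep
import Pool.Agent.Helper94_QE.Cyl

/-!
# ERM: mean ergodic theorem for the shifts of an i.i.d. potential by the multiples of a vector
-/

set_option autoImplicit false
set_option linter.unusedSectionVars false

open MeasureTheory ProbabilityTheory Function Filter Topology

open scoped ENNReal BigOperators

noncomputable section

namespace Pool.Agent.LE.H77B

open Pool.Agent.Anderson Pool.Agent.Loc Pool.Agent.Mob Pool.Agent.Helper54.Bal Pool.Agent.LE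

variable {d : ℕ}

/-- truncation -/
def tr (M x : ℝ) : ℝ := max (-M) (min M x)

theorem abs_tr {M : ℝ} (hM : 0 ≤ M) (x : ℝ) : |tr M x| ≤ M := by
  unfold tr
  rw [abs_le]
  constructor
  · exact le_max_left _ _
  · exact max_le (by linarith) (min_le_left _ _)

theorem tr_eq {M x : ℝ} (h : |x| ≤ M) : tr M x = x := by
  unfold tr
  rw [abs_le] at h
  rw [min_eq_right h.2, max_eq_right h.1]

theorem abs_sub_tr {M : ℝ} (hM : 0 ≤ M) (x : ℝ) : |x - tr M x| ≤ |x| := by
  unfold tr
  rcases le_total x M with h1 | h1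
  · rw [min_eq_right h1]
    rcases le_total (-M) x with h2 | h2
    · rw [max_eq_right h2, sub_self, abs_zero]
      exact abs_nonneg _
    · rw [max_eq_left h2, abs_of_nonpos (by linarith), abs_of_nonpos (by linarith)]
      linarith
  · rw [min_eq_left h1, max_eq_right (by linarith), abs_of_nonneg (by linarith),
      abs_of_nonneg (by linarith)]
    linarith

theorem measurable_tr (M : ℝ) : Measurable (tr M) := by
  unfold tr
  fun_prop

/-- approximation in `L¹` by bounded cylinder functions -/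
theorem approx (ν : Measure ℝ) [IsProbabilityMeasure ν] (f : Cfg d → ℝ) (hf : Measurable f)
    (hi : Integrable f (PP d ν)) (ε : ℝ) (hε : 0 < ε) :
    ∃ (g : Cfg d → ℝ) (Λ : Finset (Site d)) (B : ℝ), Measurable g ∧ (∀ V, |g V| ≤ B) ∧
      (∀ V W : Cfg d, (∀ x ∈ Λ, V x = W x) → g V = g W) ∧
      ∫ V, |f V - g V| ∂(PP d ν) ≤ ε := by
  have h1 : Tendsto (fun n : ℕ => ∫ V, |f V - tr n (f V)| ∂(PP d ν)) atTop (𝓝 0) := by
    have h2 : Tendsto (fun n : ℕ => ∫ V, |f V - tr n (f V)| ∂(PP d ν)) atTop
        (𝓝 (∫ _V : Cfg d, (0 : ℝ) ∂(PP d ν))) := by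
      apply tendsto_integral_of_dominated_convergence (fun V => |f V|)
      · intro n
        exact ((hf.sub ((measurable_tr n).comp hf)).abs).aestronglyMeasurable
      · exact hi.abs
      · intro n
        refine Eventually.of_forall fun V => ?_
        rw [Real.norm_eq_abs, abs_abs]
        exact abs_sub_tr (Nat.cast_nonneg n) _
      · refine Eventually.of_forall fun V => ?_
        apply tendsto_const_nhds.congr'
        obtain ⟨N, hN⟩ := exists_nat_ge |f V|
        filter_upwards [eventually_ge_atTop N] with n hn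
        rw [tr_eq (hN.trans (by exact_mod_cast hn)), sub_self, abs_zero]
    simpa using h2
  obtain ⟨n, hn⟩ := ((h1.eventually (gt_mem_nhds (half_pos hε))).exists)
  obtain ⟨g, Λ, C', hgm, hgb, hgl, hg2⟩ := Pool.Agent.QE.cyl d ν
    (fun V => ((tr n (f V) : ℝ) : ℂ)) (Complex.measurable_ofReal.comp ((measurable_tr n).comp hf)) n
    (fun V => by
      rw [Complex.norm_real, Real.norm_eq_abs]
      exact abs_tr (Nat.cast_nonneg n) _) ((ε / 2) ^ 2) (by positivity)
  change ∫⁻ V, ‖((tr n (f V) : ℝ) : ℂ) - g V‖ₑ ^ 2 ∂(PP d ν) ≤ ENNReal.ofReal ((ε / 2) ^ 2) at hg2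
  refine ⟨fun V => (g V).re, Λ, C', Complex.measurable_re.comp hgm, fun V => ?_,
    fun V W h => by
      change (g V).re = (g W).re
      rw [hgl V W h], ?_⟩
  · exact (Complex.abs_re_le_norm _).trans (hgb V)
  have hC : 0 ≤ C' := (norm_nonneg _).trans (hgb 0)
  have hmn : Measurable fun V => ‖((tr n (f V) : ℝ) : ℂ) - g V‖ :=
    ((Complex.measurable_ofReal.comp ((measurable_tr n).comp hf)).sub hgm).norm
  have hbn : ∀ V, ‖((tr n (f V) : ℝ) : ℂ) - g V‖ ≤ n + C' := by
    intro V
    refine (norm_sub_le _ _).trans (add_le_add ?_ (hgb V))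
    rw [Complex.norm_real, Real.norm_eq_abs]
    exact abs_tr (Nat.cast_nonneg n) _
  have hin : Integrable (fun V => ‖((tr n (f V) : ℝ) : ℂ) - g V‖) (PP d ν) := by
    apply Integrable.of_bound hmn.aestronglyMeasurable (n + C')
    refine Eventually.of_forall fun V => ?_
    rw [norm_norm]
    exact hbn V
  have hin2 : Integrable (fun V => ‖((tr n (f V) : ℝ) : ℂ) - g V‖ ^ 2) (PP d ν) := by
    apply Integrable.of_bound (hmn.pow_const 2).aestronglyMeasurable ((n + C') ^ 2)
    refine Eventually.of_forall fun V => ?_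
    rw [norm_pow, norm_norm]
    exact pow_le_pow_left₀ (norm_nonneg _) (hbn V) 2
  have hsq : ∫ V, ‖((tr n (f V) : ℝ) : ℂ) - g V‖ ^ 2 ∂(PP d ν) ≤ (ε / 2) ^ 2 := by
    rw [integral_eq_lintegral_of_nonneg_ae (Eventually.of_forall fun V => by positivity)
      hin2.aestronglyMeasurable]
    apply ENNReal.toReal_le_of_le_ofReal (by positivity)
    refine le_trans (le_of_eq ?_) hg2
    apply lintegral_congr
    intro V
    rw [ENNReal.ofReal_pow (norm_nonneg _), ofReal_norm]
  have h3 : ∫ V, ‖((tr n (f V) : ℝ) : ℂ) - g V‖ ∂(PP d ν) ≤ ε / 2 := by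
    have h4 : ∫ V, ‖((tr n (f V) : ℝ) : ℂ) - g V‖ ∂(PP d ν) ≤
        ∫ V, (ε⁻¹ * ‖((tr n (f V) : ℝ) : ℂ) - g V‖ ^ 2 + ε / 4) ∂(PP d ν) := by
      apply integral_mono hin ((hin2.const_mul _).add (integrable_const _))
      intro V
      change ‖((tr n (f V) : ℝ) : ℂ) - g V‖ ≤ ε⁻¹ * ‖((tr n (f V) : ℝ) : ℂ) - g V‖ ^ 2 + ε / 4
      set t := ‖((tr n (f V) : ℝ) : ℂ) - g V‖
      have h5 : ε⁻¹ * t ^ 2 + ε / 4 - t = ε⁻¹ * (t - ε / 2) ^ 2 := by
        field_simp
        ring
      have h6 : 0 ≤ ε⁻¹ * (t - ε / 2) ^ 2 := by positivity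
      linarith
    rw [integral_add (hin2.const_mul _) (integrable_const _), integral_const_mul,
      integral_const, probReal_univ, one_smul] at h4
    have h7 : ε⁻¹ * ∫ V, ‖((tr n (f V) : ℝ) : ℂ) - g V‖ ^ 2 ∂(PP d ν) ≤ ε⁻¹ * (ε / 2) ^ 2 :=
      mul_le_mul_of_nonneg_left hsq (by positivity)
    have h8 : ε⁻¹ * (ε / 2) ^ 2 = ε / 4 := by
      field_simp
      ring
    linarith
  have hi1 : Integrable (fun V => |f V - tr n (f V)|) (PP d ν) := by
    refine Integrable.mono' hi.abs ((hf.sub ((measurable_tr n).comp hf)).abs).aestronglyMeasurable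
      (Eventually.of_forall fun V => ?_)
    rw [Real.norm_eq_abs, abs_abs]
    exact abs_sub_tr (Nat.cast_nonneg n) _
  calc ∫ V, |f V - (g V).re| ∂(PP d ν)
      ≤ ∫ V, (|f V - tr n (f V)| + ‖((tr n (f V) : ℝ) : ℂ) - g V‖) ∂(PP d ν) := by
        apply integral_mono_of_nonneg (Eventually.of_forall fun V => abs_nonneg _) (hi1.add hin)
        refine Eventually.of_forall fun V => ?_
        change |f V - (g V).re| ≤ |f V - tr n (f V)| + ‖((tr n (f V) : ℝ) : ℂ) - g V‖
        have h9 : |tr n (f V) - (g V).re| ≤ ‖((tr n (f V) : ℝ) : ℂ) - g V‖ := by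
          have := Complex.abs_re_le_norm (((tr n (f V) : ℝ) : ℂ) - g V)
          rwa [Complex.sub_re, Complex.ofReal_re] at this
        have h10 := abs_sub_le (f V) (tr n (f V)) (g V).re
        linarith
    _ = ∫ V, |f V - tr n (f V)| ∂(PP d ν) + ∫ V, ‖((tr n (f V) : ℝ) : ℂ) - g V‖ ∂(PP d ν) :=
        integral_add hi1 hin
    _ ≤ ε := by linarith

/-- translates of a local function at distant sites are uncorrelated -/
theorem uncorr (ν : Measure ℝ) [IsProbabilityMeasure ν] (g : Cfg d → ℝ) (hg : Measurable g)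
    {r : ℕ} (hl : ∀ V W : Cfg d, (∀ x ∈ box (0 : Site d) r, V x = W x) → g V = g W)
    (s s' : Site d) (h : Disjoint (box s r) (box s' r)) (c : ℝ) :
    ∫ V, (g (tau s V) - c) * (g (tau s' V) - c) ∂(PP d ν) =
      (∫ V, (g (tau s V) - c) ∂(PP d ν)) * ∫ V, (g (tau s' V) - c) ∂(PP d ν) := by
  have h1 := (Pool.Agent.Mob.H6.iIndep_PP (d := d) ν).indepFun_finset (box s r) (box s' r) h
    (fun z => measurable_pi_apply z)
  have hu : ∀ Λ : Finset (Site d), Measurable (updateFinset (0 : Site d → ℝ) Λ) :=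
    fun Λ => measurable_updateFinset
  have key : ∀ s : Site d, (fun w : (box s r) → ℝ => g (tau s (updateFinset (0 : Site d → ℝ) _ w)) - c) ∘
      (fun (V : Site d → ℝ) (z : (box s r)) => V z) = fun V => g (tau s V) - c := by
    intro s
    funext V
    simp only [Function.comp]
    congr 1
    apply hl
    intro x hx
    have hx' : x + s ∈ box s r := by
      rw [mem_box, sd_le_iff] at hx ⊢
      intro i
      have h1 := hx i
      have h2 : s i - (x + s) i = (0 : Site d) i - x i := by
        rw [Pi.add_apply, Pi.zero_apply]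
        ring
      rwa [h2]
    change updateFinset (0 : Site d → ℝ) _ _ (x + s) = V (x + s)
    simp [updateFinset, hx']
  have h2 := h1.comp (φ := fun w => g (tau s (updateFinset (0 : Site d → ℝ) _ w)) - c)
    (ψ := fun w => g (tau s' (updateFinset (0 : Site d → ℝ) _ w)) - c)
    ((hg.comp ((measurable_tau s).comp (hu _))).sub_const c)
    ((hg.comp ((measurable_tau s').comp (hu _))).sub_const c)
  rw [key s, key s'] at h2
  exact h2.integral_fun_mul_eq_mul_integral
    ((hg.comp (measurable_tau s)).sub_const c).aestronglyMeasurable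
    ((hg.comp (measurable_tau s')).sub_const c).aestronglyMeasurable

theorem integral_tau (ν : Measure ℝ) [IsProbabilityMeasure ν] (g : Cfg d → ℝ) (hg : Measurable g)
    (s : Site d) : ∫ V, g (tau s V) ∂(PP d ν) = ∫ V, g V ∂(PP d ν) := by
  conv_rhs => rw [← (shiftInv_PP ν s).map_eq]
  rw [integral_map (measurable_tau s).aemeasurable hg.aestronglyMeasurable]

theorem disj {a : Site d} (ha : a ≠ 0) (r : ℕ) {i j : ℕ} (h : i + (2 * r + 1) ≤ j) :
    Disjoint (box (i • a) r) (box (j • a) r) := by
  rw [Finset.disjoint_left]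
  intro x hx hy
  obtain ⟨l, hl⟩ := Function.ne_iff.1 ha
  rw [mem_box, sd_le_iff] at hx hy
  have h1 := abs_le.1 (hx l)
  have h2 := abs_le.1 (hy l)
  simp only [Pi.smul_apply, nsmul_eq_mul] at h1 h2
  have h3 : (i : ℤ) + (2 * r + 1) ≤ j := by exact_mod_cast h
  rw [Pi.zero_apply] at hl
  rcases lt_or_gt_of_ne hl with h4 | h4
  · have h5 : a l ≤ -1 := by omega
    nlinarith
  · have h5 : 1 ≤ a l := by omega
    nlinarith

/-- second moment of the average of a bounded local function -/
theorem second (ν : Measure ℝ) [IsProbabilityMeasure ν] (g : Cfg d → ℝ) (hg : Measurable g)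
    {r : ℕ} {B : ℝ} (hB : ∀ V, |g V| ≤ B)
    (hl : ∀ V W : Cfg d, (∀ x ∈ box (0 : Site d) r, V x = W x) → g V = g W)
    {a : Site d} (ha : a ≠ 0) (k : ℕ) :
    ∫ V, (∑ i ∈ Finset.range k, (g (tau (i • a) V) - ∫ W, g W ∂(PP d ν))) ^ 2 ∂(PP d ν) ≤
      k * (2 * (2 * r + 1)) * (4 * B ^ 2) := by
  set c := ∫ W, g W ∂(PP d ν) with hc
  have hB0 : 0 ≤ B := (abs_nonneg _).trans (hB 0)
  have hcB : |c| ≤ B := by
    rw [hc]
    refine (abs_integral_le_integral_abs).trans ?_
    have h1 : ∫ V, |g V| ∂(PP d ν) ≤ ∫ _V : Cfg d, B ∂(PP d ν) := by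
      apply integral_mono_of_nonneg (Eventually.of_forall fun V => abs_nonneg _)
        (integrable_const _) (Eventually.of_forall hB)
    rwa [integral_const, probReal_univ, one_smul] at h1
  have hgi : Integrable g (PP d ν) :=
    Integrable.of_bound hg.aestronglyMeasurable B (Eventually.of_forall hB)
  have hm : ∀ i : ℕ, Measurable fun V => g (tau (i • a) V) - c :=
    fun i => (hg.comp (measurable_tau _)).sub_const c
  have hb : ∀ (i : ℕ) V, |g (tau (i • a) V) - c| ≤ 2 * B := by
    intro i V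
    have h1 := abs_sub (g (tau (i • a) V)) c
    have h2 := hB (tau (i • a) V)
    linarith
  have hpi : ∀ i j : ℕ, Integrable (fun V => (g (tau (i • a) V) - c) * (g (tau (j • a) V) - c))
      (PP d ν) := by
    intro i j
    apply Integrable.of_bound ((hm i).mul (hm j)).aestronglyMeasurable ((2 * B) * (2 * B))
    refine Eventually.of_forall fun V => ?_
    change ‖(g (tau (i • a) V) - c) * (g (tau (j • a) V) - c)‖ ≤ _
    rw [Real.norm_eq_abs, abs_mul]
    exact mul_le_mul (hb i V) (hb j V) (abs_nonneg _) (by positivity)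
  have h0 : ∀ i : ℕ, ∫ V, (g (tau (i • a) V) - c) ∂(PP d ν) = 0 := by
    intro i
    rw [integral_sub, integral_tau ν g hg, integral_const, probReal_univ, one_smul, ← hc, sub_self]
    · exact Integrable.of_bound (hg.comp (measurable_tau _)).aestronglyMeasurable B
        (Eventually.of_forall fun V => hB _)
    · exact integrable_const _
  have hle : ∀ i j : ℕ, ∫ V, (g (tau (i • a) V) - c) * (g (tau (j • a) V) - c) ∂(PP d ν) ≤
      if j ∈ Finset.Ico (i - (2 * r + 1)) (i + (2 * r + 1)) then 4 * B ^ 2 else 0 := by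
    intro i j
    split_ifs with hj
    · have h1 : ∫ V, (g (tau (i • a) V) - c) * (g (tau (j • a) V) - c) ∂(PP d ν) ≤
          ∫ _V : Cfg d, 4 * B ^ 2 ∂(PP d ν) := by
        apply integral_mono (hpi i j) (integrable_const _)
        intro V
        simp only
        calc (g (tau (i • a) V) - c) * (g (tau (j • a) V) - c)
            ≤ |(g (tau (i • a) V) - c) * (g (tau (j • a) V) - c)| := le_abs_self _
          _ = |g (tau (i • a) V) - c| * |g (tau (j • a) V) - c| := abs_mul _ _
          _ ≤ (2 * B) * (2 * B) := mul_le_mul (hb i V) (hb j V) (abs_nonneg _) (by positivity)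
          _ = 4 * B ^ 2 := by ring
      rwa [integral_const, probReal_univ, one_smul] at h1
    · have h2 : Disjoint (box (i • a) r) (box (j • a) r) := by
        rw [Finset.mem_Ico] at hj
        rcases le_or_gt (i + (2 * r + 1)) j with h | h
        · exact disj ha r h
        · exact (disj ha r (show j + (2 * r + 1) ≤ i by omega)).symm
      rw [uncorr ν g hg hl _ _ h2 c, h0, zero_mul]
  have hexp : ∀ V, (∑ i ∈ Finset.range k, (g (tau (i • a) V) - c)) ^ 2 =
      ∑ i ∈ Finset.range k, ∑ j ∈ Finset.range k,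
        (g (tau (i • a) V) - c) * (g (tau (j • a) V) - c) := by
    intro V
    rw [sq, Finset.sum_mul_sum]
  simp only [hexp]
  rw [integral_finsetSum _ fun i _ => integrable_finsetSum _ fun j _ => hpi i j]
  have h3 : ∀ i ∈ Finset.range k, ∫ V, ∑ j ∈ Finset.range k,
      (g (tau (i • a) V) - c) * (g (tau (j • a) V) - c) ∂(PP d ν) ≤
        (2 * (2 * r + 1)) * (4 * B ^ 2) := by
    intro i _
    rw [integral_finsetSum _ fun j _ => hpi i j]
    refine (Finset.sum_le_sum fun j _ => hle i j).trans ?_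
    rw [← Finset.sum_filter, Finset.sum_const, nsmul_eq_mul]
    apply mul_le_mul_of_nonneg_right _ (by positivity)
    have h4 : (Finset.filter (fun j => j ∈ Finset.Ico (i - (2 * r + 1)) (i + (2 * r + 1)))
        (Finset.range k)).card ≤ 2 * (2 * r + 1) := by
      refine (Finset.card_le_card (t := Finset.Ico (i - (2 * r + 1)) (i + (2 * r + 1))) ?_).trans ?_
      · intro j hj
        exact (Finset.mem_filter.1 hj).2
      · rw [Nat.card_Ico]
        omega
    exact_mod_cast h4
  refine (Finset.sum_le_sum h3).trans ?_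
  rw [Finset.sum_const, Finset.card_range, nsmul_eq_mul]
  apply le_of_eq
  ring

theorem erm : ErmStmt := by
  intro d ν _ f hf hfi a ha
  rw [Metric.tendsto_atTop]
  intro ε hε
  obtain ⟨g, Λ, B, hg, hB, hl, hfg⟩ := approx ν f hf hfi (ε / 4) (by positivity)
  obtain ⟨r, hr⟩ : ∃ r : ℕ, Λ ⊆ box (0 : Site d) r := by
    refine ⟨Λ.sup fun x => sd 0 x, fun x hx => ?_⟩
    rw [mem_box]
    exact Finset.le_sup (f := fun x => sd 0 x) hx
  have hl' : ∀ V W : Cfg d, (∀ x ∈ box (0 : Site d) r, V x = W x) → g V = g W :=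
    fun V W h => hl V W fun x hx => h x (hr hx)
  have hB0 : 0 ≤ B := (abs_nonneg _).trans (hB 0)
  set P := PP d ν with hP
  set c := ∫ W, g W ∂P with hc
  obtain ⟨N, hN⟩ := exists_nat_gt ((2 * (2 * r + 1)) * (4 * B ^ 2) / (ε / 4) ^ 2)
  have hN0 : 0 < N := by
    rcases Nat.eq_zero_or_pos N with h | h
    · rw [h] at hN
      have : 0 ≤ (2 * (2 * (r : ℝ) + 1)) * (4 * B ^ 2) / (ε / 4) ^ 2 := by positivity
      rw [Nat.cast_zero] at hN
      linarith
    · exact h
  refine ⟨N, fun k hk => ?_⟩
  have hk0 : (0 : ℝ) < k := by exact_mod_cast lt_of_lt_of_le hN0 hk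
  have hgi : Integrable g P :=
    Integrable.of_bound hg.aestronglyMeasurable B (Eventually.of_forall hB)
  have hfgi : Integrable (fun V => |f V - g V|) P := (hfi.sub hgi).abs
  have hfgm : Measurable (fun V => |f V - g V|) := (hf.sub hg).abs
  have hti : ∀ (u : Cfg d → ℝ), Measurable u → Integrable u P → ∀ s : Site d,
      Integrable (fun V => u (tau s V)) P := by
    intro u hu hui s
    exact ((shiftInv_PP ν s).integrable_comp hui.aestronglyMeasurable).2 hui
  -- the three parts
  set A1 : Cfg d → ℝ := fun V => (∑ i ∈ Finset.range k, |f (tau (i • a) V) - g (tau (i • a) V)|) / k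
    with hA1
  set A2 : Cfg d → ℝ := fun V => (∑ i ∈ Finset.range k, (g (tau (i • a) V) - c)) / k with hA2
  have hA1i : Integrable A1 P :=
    (integrable_finsetSum _ fun i _ => hti _ hfgm hfgi _).div_const _
  have hA1v : ∫ V, A1 V ∂P ≤ ε / 4 := by
    rw [hA1, integral_div, integral_finsetSum _ fun i _ => hti _ hfgm hfgi _]
    have h1 : ∀ i ∈ Finset.range k, ∫ V, |f (tau (i • a) V) - g (tau (i • a) V)| ∂P ≤ ε / 4 := by
      intro i _
      rw [hP, integral_tau ν (fun V => |f V - g V|) hfgm]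
      exact hfg
    rw [div_le_iff₀ hk0]
    refine (Finset.sum_le_sum h1).trans ?_
    rw [Finset.sum_const, Finset.card_range, nsmul_eq_mul, mul_comm]
  have hA2m : Measurable A2 :=
    (Finset.measurable_sum _ fun i _ => (hg.comp (measurable_tau _)).sub_const c).div_const _
  have hcB : |c| ≤ B := by
    rw [hc]
    refine (abs_integral_le_integral_abs).trans ?_
    have h1 : ∫ V, |g V| ∂P ≤ ∫ _V : Cfg d, B ∂P := by
      apply integral_mono_of_nonneg (Eventually.of_forall fun V => abs_nonneg _)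
        (integrable_const _) (Eventually.of_forall hB)
    rwa [integral_const, probReal_univ, one_smul] at h1
  have hA2b : ∀ V, |A2 V| ≤ 2 * B := by
    intro V
    rw [hA2]
    simp only
    rw [abs_div, abs_of_pos hk0, div_le_iff₀ hk0]
    refine (Finset.abs_sum_le_sum_abs _ _).trans ?_
    have h1 : ∀ i ∈ Finset.range k, |g (tau (i • a) V) - c| ≤ 2 * B := by
      intro i _
      have h2 := abs_sub (g (tau (i • a) V)) c
      have h3 := hB (tau (i • a) V)
      linarith
    refine (Finset.sum_le_sum h1).trans ?_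
    rw [Finset.sum_const, Finset.card_range, nsmul_eq_mul, mul_comm]
  have hA2i : Integrable (fun V => |A2 V|) P := by
    apply Integrable.of_bound hA2m.abs.aestronglyMeasurable (2 * B)
    refine Eventually.of_forall fun V => ?_
    rw [Real.norm_eq_abs, abs_abs]
    exact hA2b V
  have hA2i2 : Integrable (fun V => A2 V ^ 2) P := by
    apply Integrable.of_bound (hA2m.pow_const 2).aestronglyMeasurable ((2 * B) ^ 2)
    refine Eventually.of_forall fun V => ?_
    rw [Real.norm_eq_abs, abs_pow]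
    exact pow_le_pow_left₀ (abs_nonneg _) (hA2b V) 2
  have hA2s : ∫ V, A2 V ^ 2 ∂P ≤ (ε / 4) ^ 2 := by
    have h1 : ∀ V, A2 V ^ 2 = (∑ i ∈ Finset.range k, (g (tau (i • a) V) - c)) ^ 2 / (k : ℝ) ^ 2 := by
      intro V
      rw [hA2]
      simp only
      rw [div_pow]
    simp only [h1]
    rw [integral_div, div_le_iff₀ (by positivity)]
    refine (second ν g hg hB hl' ha k).trans ?_
    have h2 : (2 * (2 * (r : ℝ) + 1)) * (4 * B ^ 2) ≤ k * (ε / 4) ^ 2 := by
      rw [div_lt_iff₀ (by positivity)] at hN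
      have h3 : (N : ℝ) ≤ k := by exact_mod_cast hk
      have h4 : (N : ℝ) * (ε / 4) ^ 2 ≤ k * (ε / 4) ^ 2 :=
        mul_le_mul_of_nonneg_right h3 (by positivity)
      linarith
    calc (k : ℝ) * (2 * (2 * r + 1)) * (4 * B ^ 2) = k * ((2 * (2 * (r : ℝ) + 1)) * (4 * B ^ 2)) := by
          ring
      _ ≤ k * (k * (ε / 4) ^ 2) := mul_le_mul_of_nonneg_left h2 hk0.le
      _ = (ε / 4) ^ 2 * (k : ℝ) ^ 2 := by ring
  have hA2v : ∫ V, |A2 V| ∂P ≤ ε / 4 := by
    have h4 : ∫ V, |A2 V| ∂P ≤ ∫ V, ((2 / ε) * A2 V ^ 2 + ε / 8) ∂P := by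
      apply integral_mono hA2i ((hA2i2.const_mul _).add (integrable_const _))
      intro V
      change |A2 V| ≤ (2 / ε) * A2 V ^ 2 + ε / 8
      have h5 : (2 / ε) * A2 V ^ 2 + ε / 8 - |A2 V| = (2 / ε) * (|A2 V| - ε / 4) ^ 2 := by
        rw [← sq_abs (A2 V)]
        field_simp
        ring
      have h6 : 0 ≤ (2 / ε) * (|A2 V| - ε / 4) ^ 2 := by positivity
      linarith
    rw [integral_add (hA2i2.const_mul _) (integrable_const _), integral_const_mul,
      integral_const, probReal_univ, one_smul] at h4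
    have h7 : (2 / ε) * ∫ V, A2 V ^ 2 ∂P ≤ (2 / ε) * (ε / 4) ^ 2 :=
      mul_le_mul_of_nonneg_left hA2s (by positivity)
    have h8 : (2 / ε) * (ε / 4) ^ 2 = ε / 8 := by
      field_simp
      ring
    linarith
  have hcf : |c - ∫ W, f W ∂P| ≤ ε / 4 := by
    rw [abs_sub_comm, hc, ← integral_sub hfi hgi]
    exact abs_integral_le_integral_abs.trans hfg
  have hmain : ∫ V, |(∑ i ∈ Finset.range k, f (tau (i • a) V)) / k - ∫ W, f W ∂P| ∂P ≤
      3 * ε / 4 := by
    calc ∫ V, |(∑ i ∈ Finset.range k, f (tau (i • a) V)) / k - ∫ W, f W ∂P| ∂P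
        ≤ ∫ V, (A1 V + (|A2 V| + ε / 4)) ∂P := by
          apply integral_mono_of_nonneg (Eventually.of_forall fun V => abs_nonneg _)
            (hA1i.add (hA2i.add (integrable_const _)))
          refine Eventually.of_forall fun V => ?_
          change |(∑ i ∈ Finset.range k, f (tau (i • a) V)) / k - ∫ W, f W ∂P| ≤
            A1 V + (|A2 V| + ε / 4)
          have e : (∑ i ∈ Finset.range k, f (tau (i • a) V)) / k - ∫ W, f W ∂P =
              (∑ i ∈ Finset.range k, (f (tau (i • a) V) - g (tau (i • a) V))) / k + A2 V +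
                (c - ∫ W, f W ∂P) := by
            rw [hA2]
            simp only
            rw [Finset.sum_sub_distrib, Finset.sum_sub_distrib, Finset.sum_const,
              Finset.card_range, nsmul_eq_mul]
            field_simp
            ring
          rw [e]
          refine (abs_add_le _ _).trans ?_
          refine (add_le_add (abs_add_le _ _) hcf).trans ?_
          have h9 : |(∑ i ∈ Finset.range k, (f (tau (i • a) V) - g (tau (i • a) V))) / (k : ℝ)| ≤
              A1 V := by
            rw [hA1]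
            simp only
            rw [abs_div, abs_of_pos hk0]
            exact div_le_div_of_nonneg_right (Finset.abs_sum_le_sum_abs _ _) hk0.le
          linarith
      _ = ∫ V, A1 V ∂P + (∫ V, |A2 V| ∂P + ε / 4) := by
          have e1 : ∫ V, (|A2 V| + ε / 4) ∂P = ∫ V, |A2 V| ∂P + ε / 4 := by
            rw [integral_add hA2i (integrable_const _), integral_const, probReal_univ, one_smul]
          have i1 : Integrable (fun V => |A2 V| + ε / 4) P := hA2i.add (integrable_const _)
          rw [integral_add hA1i i1, e1]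
      _ ≤ 3 * ε / 4 := by linarith
  rw [Real.dist_eq, sub_zero, abs_of_nonneg (integral_nonneg fun V => abs_nonneg _)]
  linarith

end Pool.Agent.LE.H77B
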