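import Pool.Agent.LE.Stmts2

/-!
Row CLO: closedness by projection along a compact set.
-/

set_option autoImplicit false

open MeasureTheory ProbabilityTheory Function

open scoped ENNReal BigOperators

noncomputable section

namespace Pool.Agent.LE.H77

open Pool.Agent.Anderson Pool.Agent.Loc Pool.Agent.Helper54.Bal
  Pool.Agent.Helper96.EXP Pool.Agent.LE

/-- the compact set of the functions with the given decay -/
def K0 (d : ℕ) (C m : ℝ) : Set (Site d → ℝ) :=
  Set.pi Set.univ fun x => Set.Icc (-(C * Real.exp (-m * sd 0 x))) (C * Real.exp (-m * sd 0 x))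

theorem mem_K0 {d : ℕ} {C m : ℝ} {n : Site d → ℝ} : n ∈ K0 d C m ↔ Dec C m n := by
  unfold K0 Dec
  rw [Set.mem_univ_pi]
  exact forall_congr' fun x => by rw [Set.mem_Icc, abs_le]

theorem isCompact_K0 (d : ℕ) (C m : ℝ) : IsCompact (K0 d C m) :=
  isCompact_univ_pi fun _ => isCompact_Icc

theorem continuous_lapR {d : ℕ} (x : Site d) : Continuous fun n : Site d → ℝ => lapR n x := by
  unfold lapR
  exact continuous_finsetSum _ fun i _ => (continuous_apply _).add (continuous_apply _)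

theorem closed_sol {d : ℕ} {T : Type} [TopologicalSpace T] {V n : T → Site d → ℝ} {E : T → ℝ}
    (hV : Continuous V) (hn : Continuous n) (hE : Continuous E) :
    IsClosed {t | n t 0 = 1 ∧ ∀ x, x ≠ 0 → lapR (n t) x + V t x * n t x = E t * n t x} := by
  have e : {t | n t 0 = 1 ∧ ∀ x, x ≠ 0 → lapR (n t) x + V t x * n t x = E t * n t x} =
      {t | n t 0 = 1} ∩ ⋂ x : Site d, ⋂ (_ : x ≠ 0),
        {t | lapR (n t) x + V t x * n t x = E t * n t x} := by
    ext t
    simp only [Set.mem_setOf_eq, Set.mem_inter_iff, Set.mem_iInter]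
  rw [e]
  have hc : ∀ x, Continuous fun t => n t x := fun x => (continuous_apply x).comp hn
  have hc' : ∀ x, Continuous fun t => V t x := fun x => (continuous_apply x).comp hV
  refine (isClosed_eq (hc 0) continuous_const).inter ?_
  refine isClosed_iInter fun x => isClosed_iInter fun _ => ?_
  exact isClosed_eq (((continuous_lapR x).comp hn).add ((hc' x).mul (hc x))) (hE.mul (hc x))

theorem clo : CloStmt := by
  intro d C m
  have : CompactSpace (K0 d C m) := isCompact_iff_compactSpace.1 (isCompact_K0 d C m)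
  constructor
  · have h1 : IsClosed {t : ((Site d → ℝ) × ℝ) × K0 d C m | (t.2 : Site d → ℝ) 0 = 1 ∧
        ∀ x, x ≠ 0 → lapR (t.2 : Site d → ℝ) x + t.1.1 x * (t.2 : Site d → ℝ) x =
          t.1.2 * (t.2 : Site d → ℝ) x} :=
      closed_sol (V := fun t : ((Site d → ℝ) × ℝ) × K0 d C m => t.1.1)
        (n := fun t => (t.2 : Site d → ℝ)) (E := fun t => t.1.2)
        (continuous_fst.comp continuous_fst) (continuous_subtype_val.comp continuous_snd)
        (continuous_snd.comp continuous_fst)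
    have h2 := isClosedMap_fst_of_compactSpace (X := (Site d → ℝ) × ℝ) (Y := K0 d C m) _ h1
    have e : {p : (Site d → ℝ) × ℝ | GoodE C m p.1 p.2} =
        Prod.fst '' {t : ((Site d → ℝ) × ℝ) × K0 d C m | (t.2 : Site d → ℝ) 0 = 1 ∧
        ∀ x, x ≠ 0 → lapR (t.2 : Site d → ℝ) x + t.1.1 x * (t.2 : Site d → ℝ) x =
          t.1.2 * (t.2 : Site d → ℝ) x} := by
      ext p
      constructor
      · rintro ⟨n, hn0, hn1, hn2⟩
        exact ⟨(p, ⟨n, mem_K0.2 hn1⟩), ⟨hn0, hn2⟩, rfl⟩
      · rintro ⟨⟨q, n⟩, ⟨hn0, hn2⟩, rfl⟩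
        exact ⟨n, hn0, mem_K0.1 n.2, hn2⟩
    rw [e]
    exact h2
  · intro K hK
    have : CompactSpace K := isCompact_iff_compactSpace.1 hK
    have h1 : IsClosed {t : (Site d → ℝ) × (K × K0 d C m) |
        ((t.2.2 : Site d → ℝ) 0 = 1 ∧
        ∀ x, x ≠ 0 → lapR (t.2.2 : Site d → ℝ) x + t.1 x * (t.2.2 : Site d → ℝ) x =
          (t.2.1 : ℝ) * (t.2.2 : Site d → ℝ) x) ∧
        lapR (t.2.2 : Site d → ℝ) 0 + t.1 0 = (t.2.1 : ℝ)} := by
      refine (closed_sol (V := fun t : (Site d → ℝ) × (K × K0 d C m) => t.1)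
        (n := fun t => (t.2.2 : Site d → ℝ)) (E := fun t => (t.2.1 : ℝ)) continuous_fst
        (continuous_subtype_val.comp (continuous_snd.comp continuous_snd))
        (continuous_subtype_val.comp (continuous_fst.comp continuous_snd))).inter ?_
      refine isClosed_eq (Continuous.add ?_ ?_)
        (continuous_subtype_val.comp (continuous_fst.comp continuous_snd))
      · exact (continuous_lapR 0).comp
          (continuous_subtype_val.comp (continuous_snd.comp continuous_snd))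
      · exact (continuous_apply 0).comp continuous_fst
    have h2 := isClosedMap_fst_of_compactSpace (X := Site d → ℝ) (Y := K × K0 d C m) _ h1
    have e : {V : Site d → ℝ | ∃ E ∈ K, ∃ n, Sol C m V E n ∧ lapR n 0 + V 0 = E} =
        Prod.fst '' {t : (Site d → ℝ) × (K × K0 d C m) |
        ((t.2.2 : Site d → ℝ) 0 = 1 ∧
        ∀ x, x ≠ 0 → lapR (t.2.2 : Site d → ℝ) x + t.1 x * (t.2.2 : Site d → ℝ) x =
          (t.2.1 : ℝ) * (t.2.2 : Site d → ℝ) x) ∧
        lapR (t.2.2 : Site d → ℝ) 0 + t.1 0 = (t.2.1 : ℝ)} := by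
      ext V
      constructor
      · rintro ⟨E, hE, n, ⟨hn0, hn1, hn2⟩, h3⟩
        exact ⟨(V, (⟨E, hE⟩, ⟨n, mem_K0.2 hn1⟩)), ⟨⟨hn0, hn2⟩, h3⟩, rfl⟩
      · rintro ⟨⟨W, E, n⟩, ⟨⟨hn0, hn2⟩, h3⟩, rfl⟩
        exact ⟨E, E.2, n, ⟨hn0, mem_K0.1 n.2, hn2⟩, h3⟩
    rw [e]
    exact h2

end Pool.Agent.LE.H77
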