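import Pool.Agent.LE.StmtsR
import Pool.Agent.Helper3_LE.ConA
import Pool.Agent.Helper59_LE.Rst

/-!
# FEX: decay of the Green function gives decay of the solutions off the site `0` at the same rate
-/

set_option autoImplicit false

open MeasureTheory ProbabilityTheory Function Filter

open scoped ENNReal BigOperators Topology

noncomputable section

namespace Pool.Agent.LE.H77F

open Pool.Agent.Anderson Pool.Agent.Loc Pool.Agent.Mob Pool.Agent.Helper54.Bal
  Pool.Agent.Helper96.EXP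

variable {d : ℕ}

/-- the value at the centre of a good cube which does not contain `0` -/
theorem value {C m E g : ℝ} {V n : Site d → ℝ} {L : ℕ} {y : Site d} (hm : 0 < m)
    (hn : Sol C m V E n) (hg : SG V L g E y) (h0 : L < sd 0 y) :
    |n y| ≤ (2 * L + 1) ^ d * (Real.exp (-g * L) * (2 * d * C)) := by
  classical
  obtain ⟨hn0, hdec, hsol⟩ := hn
  have hC := hdec.nonneg
  obtain ⟨hdet, hgr⟩ := hg
  set B := box y L with hB
  have hyB : y ∈ B := by rw [hB, mem_box, sd_self]; exact Nat.zero_le _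
  have hB0 : ∀ x ∈ B, x ≠ 0 := by
    intro x hx h
    rw [h, hB, mem_box, sd_comm] at hx
    omega
  set β : Site d → ℝ := fun x => ∑ z ∈ (box x 1 ∪ B) \ B, hop x z * n z with hβ
  have hr : ∀ x ∈ B, E * n x - V x * n x - ∑ z ∈ B, hop x z * n z = β x := by
    intro x hx
    have h1 := sum_hop x (box x 1 ∪ B) Finset.subset_union_left n
    simp only [smul_eq_mul] at h1
    have h2 : lapR n x = ∑ z ∈ B, hop x z * n z + β x := by
      unfold lapR
      rw [← h1, hβ, add_comm]
      simp only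
      rw [Finset.sum_sdiff Finset.subset_union_right]
    have h3 := hsol x (hB0 x hx)
    linarith
  have hβb : ∀ x, |β x| ≤ 2 * d * C := by
    intro x
    have h1 : ∀ z ∈ (box x 1 ∪ B) \ B, |hop x z * n z| ≤ hop x z * C := by
      intro z _
      rw [abs_mul, abs_of_nonneg (hop_nonneg x z)]
      exact mul_le_mul_of_nonneg_left (hdec.abs_le hm z) (hop_nonneg x z)
    calc |β x| ≤ ∑ z ∈ (box x 1 ∪ B) \ B, |hop x z * n z| := Finset.abs_sum_le_sum_abs _ _
      _ ≤ ∑ z ∈ (box x 1 ∪ B) \ B, hop x z * C := Finset.sum_le_sum h1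
      _ = (∑ z ∈ (box x 1 ∪ B) \ B, hop x z) * C := by rw [Finset.sum_mul]
      _ ≤ 2 * d * C := mul_le_mul_of_nonneg_right (sum_hop_le x _) hC
  have hβ0 : ∀ x ∈ B, sd y x ≠ L → β x = 0 := by
    intro x hx hne
    have hlt : sd y x < L := lt_of_le_of_ne (mem_box.1 hx) hne
    refine Finset.sum_eq_zero fun z hz => ?_
    rw [Finset.mem_sdiff] at hz
    have h1 : hop x z = 0 := by
      by_contra h
      have h2 := sd_of_hop h
      apply hz.2
      rw [hB, mem_box]
      have := sd_triangle y x z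
      omega
    rw [h1, zero_mul]
  have hrep := H59.repr hdet n hyB
  rw [Finset.sum_congr rfl fun x hx => by rw [hr x hx]] at hrep
  rw [hrep]
  calc |∑ x ∈ B, gr V B E y x * β x| ≤ ∑ x ∈ B, |gr V B E y x * β x| :=
      Finset.abs_sum_le_sum_abs _ _
    _ ≤ ∑ _x ∈ B, Real.exp (-g * L) * (2 * d * C) := by
      refine Finset.sum_le_sum fun x hx => ?_
      by_cases h : sd y x = L
      · rw [abs_mul]
        exact mul_le_mul (hgr x h) (hβb x) (abs_nonneg _) (Real.exp_pos _).le
      · rw [hβ0 x hx h, mul_zero, abs_zero]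
        positivity
    _ = (2 * L + 1) ^ d * (Real.exp (-g * L) * (2 * d * C)) := by
      rw [Finset.sum_const, nsmul_eq_mul, hB, card_box]
      congr 1
      push_cast
      ring

/-- the probability that some cube about a site at distance `L + 1` is bad -/
theorem prob_bad {ν : Measure ℝ} [IsProbabilityMeasure ν] {E g : ℝ} {L : ℕ} (hL : 1 ≤ L)
    (h : PP d ν {V | ¬ SG V L g E 0} ≤ ENNReal.ofReal ((L : ℝ) ^ (-((d : ℝ) + 2)))) :
    PP d ν {V | ∃ y : Site d, sd 0 y = L + 1 ∧ ¬ SG V L g E y} ≤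
      ENNReal.ofReal (5 ^ d * (1 / (L : ℝ) ^ 2)) := by
  have hset : {V : Site d → ℝ | ∃ y : Site d, sd 0 y = L + 1 ∧ ¬ SG V L g E y} ⊆
      ⋃ y ∈ box (0 : Site d) (L + 1), {V | ¬ SG V L g E y} := by
    rintro V ⟨y, hy, hb⟩
    rw [Set.mem_iUnion₂]
    exact ⟨y, mem_box.2 hy.le, hb⟩
  have hone : ∀ y : Site d, PP d ν {V | ¬ SG V L g E y} =
      PP d ν {V | ¬ SG V L g E 0} := by
    intro y
    have h1 := (shiftInv_PP (d := d) (μ := ν) y).measure_preimage
      (s := {V | ¬ SG V L g E 0}) (H3A.measurableSet_sg L g E 0).compl.nullMeasurableSet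
    rw [← h1]
    refine congrArg (fun s => PP d ν s) (Set.ext fun V => ?_)
    rw [Set.mem_preimage, Set.mem_ofPred_eq, Set.mem_ofPred_eq, H3A.sg_tau, zero_add]
  have hL' : (1 : ℝ) ≤ L := by exact_mod_cast hL
  have hL0 : (0 : ℝ) < L := by linarith
  have hpow : (L : ℝ) ^ (-((d : ℝ) + 2)) = 1 / (L : ℝ) ^ (d + 2) := by
    rw [Real.rpow_neg hL0.le, one_div]
    congr 1
    rw [← Real.rpow_natCast]
    push_cast
    rfl
  calc PP d ν {V | ∃ y : Site d, sd 0 y = L + 1 ∧ ¬ SG V L g E y} ≤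
        PP d ν (⋃ y ∈ box (0 : Site d) (L + 1), {V | ¬ SG V L g E y}) := measure_mono hset
    _ ≤ ∑ y ∈ box (0 : Site d) (L + 1), PP d ν {V | ¬ SG V L g E y} :=
      measure_biUnion_finset_le _ _
    _ = (box (0 : Site d) (L + 1)).card • PP d ν {V | ¬ SG V L g E 0} := by
      rw [Finset.sum_congr rfl fun y _ => hone y, Finset.sum_const]
    _ ≤ (box (0 : Site d) (L + 1)).card • ENNReal.ofReal (1 / (L : ℝ) ^ (d + 2)) := by
      rw [← hpow]
      exact nsmul_le_nsmul_right h _
    _ = ENNReal.ofReal (((box (0 : Site d) (L + 1)).card : ℝ) * (1 / (L : ℝ) ^ (d + 2))) := by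
      rw [ENNReal.ofReal_mul (Nat.cast_nonneg _), ENNReal.ofReal_natCast, nsmul_eq_mul]
    _ ≤ ENNReal.ofReal (5 ^ d * (1 / (L : ℝ) ^ 2)) := by
      refine ENNReal.ofReal_le_ofReal ?_
      rw [card_box, pow_add]
      push_cast
      have h5 : (2 * ((L : ℝ) + 1) + 1) ^ d ≤ (5 * (L : ℝ)) ^ d :=
        pow_le_pow_left₀ (by positivity) (by linarith) d
      have h6 : 1 / ((L : ℝ) ^ d * (L : ℝ) ^ 2) = (1 / (L : ℝ) ^ d) * (1 / (L : ℝ) ^ 2) := by
        rw [one_div_mul_one_div]
      rw [h6, ← mul_assoc]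
      refine mul_le_mul_of_nonneg_right ?_ (by positivity)
      calc (2 * ((L : ℝ) + 1) + 1) ^ d * (1 / (L : ℝ) ^ d) ≤
          (5 * (L : ℝ)) ^ d * (1 / (L : ℝ) ^ d) := mul_le_mul_of_nonneg_right h5 (by positivity)
        _ = 5 ^ d := by
          rw [mul_pow]
          field_simp

theorem fex : FexStmt := by
  intro d ν _ E g c C m hm hcg hex
  obtain ⟨L₀, hL₀⟩ := hex
  set s : ℕ → Set (Site d → ℝ) := fun L =>
    if L₀ + 1 ≤ L then {V | ∃ y : Site d, sd 0 y = L + 1 ∧ ¬ SG V L g E y} else ∅ with hs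
  have hsum : (∑' L, PP d ν (s L)) ≠ ∞ := by
    have h1 : Summable fun L : ℕ => (5 : ℝ) ^ d * (1 / (L : ℝ) ^ 2) :=
      (Real.summable_one_div_nat_pow.2 one_lt_two).mul_left _
    refine ne_top_of_le_ne_top h1.tsum_ofReal_ne_top (ENNReal.tsum_le_tsum fun L => ?_)
    simp only [hs]
    split_ifs with h
    · exact prob_bad (by omega) (hL₀ L (by omega))
    · rw [measure_empty]
      exact zero_le
  filter_upwards [ae_eventually_notMem hsum] with V hV n hn
  obtain ⟨r₁, hr₁⟩ := eventually_atTop.1 hV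
  have hC := hn.2.1.nonneg
  obtain ⟨r₂, hr₂⟩ := eventually_atTop.1
    (((tendsto_poly_exp d (sub_pos.2 hcg) 1 (2 * d)).eventually
      (eventually_lt_nhds (show (0 : ℝ) < 1 by norm_num))).mono fun _ h => h.le)
  set R := max (max r₁ r₂) (L₀ + 1) + 1 with hR
  refine ⟨C * Real.exp (|c| * (R + 1)), fun y => ?_⟩
  have hca : c ≤ |c| := le_abs_self c
  have hca' : -|c| ≤ c := neg_abs_le c
  by_cases hy : sd 0 y ≤ R
  · refine (hn.2.1.abs_le hm y).trans ?_
    rw [mul_assoc, ← Real.exp_add]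
    have h1 : (sd 0 y : ℝ) ≤ R := by exact_mod_cast hy
    have h2 : 0 ≤ |c| * (R + 1) + -c * sd 0 y := by
      have h3 : c * (sd 0 y : ℝ) ≤ |c| * R := by
        calc c * (sd 0 y : ℝ) ≤ |c| * sd 0 y := mul_le_mul_of_nonneg_right hca (Nat.cast_nonneg _)
          _ ≤ |c| * R := mul_le_mul_of_nonneg_left h1 (abs_nonneg c)
      have h4 := abs_nonneg c
      nlinarith
    calc C = C * 1 := (mul_one C).symm
      _ ≤ C * Real.exp (|c| * (R + 1) + -c * sd 0 y) :=
        mul_le_mul_of_nonneg_left (Real.one_le_exp h2) hC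
  · push Not at hy
    obtain ⟨L, hL⟩ : ∃ L, sd 0 y = L + 1 := ⟨sd 0 y - 1, by omega⟩
    have hLR : R ≤ L := by omega
    have hg : SG V L g E y := by
      by_contra hcon
      refine hr₁ L (by omega) ?_
      simp only [hs]
      rw [if_pos (by omega)]
      exact ⟨y, hL, hcon⟩
    refine (value hm hn hg (by omega)).trans ?_
    have h1 := hr₂ L (by omega)
    have h2 : Real.exp (-g * L) = Real.exp (-(g - c) * L) * Real.exp (-c * L) := by
      rw [← Real.exp_add]
      congr 1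
      ring
    rw [h2, hL]
    calc (2 * (L : ℝ) + 1) ^ d * (Real.exp (-(g - c) * L) * Real.exp (-c * L) * (2 * d * C)) =
        (2 * d * (2 * (L : ℝ) + 1) ^ d * Real.exp (-(g - c) * L)) * (C * Real.exp (-c * L)) := by
          ring
      _ ≤ 1 * (C * Real.exp (-c * L)) :=
        mul_le_mul_of_nonneg_right h1 (mul_nonneg hC (Real.exp_pos _).le)
      _ ≤ C * Real.exp (|c| * (R + 1)) * Real.exp (-c * ((L + 1 : ℕ) : ℝ)) := by
        rw [one_mul, mul_assoc, ← Real.exp_add]
        refine mul_le_mul_of_nonneg_left (Real.exp_le_exp.2 ?_) hC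
        push_cast
        have h3 : 0 ≤ |c| * R := by positivity
        nlinarith

end Pool.Agent.LE.H77F
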