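import Pool.Agent.LE.StmtsG

/-!
# SUBX: subadditivity of the averaged norm
-/

set_option autoImplicit false

open MeasureTheory ProbabilityTheory Function Filter

open scoped ENNReal BigOperators Topology

noncomputable section

namespace Pool.Agent.LE.H77S

open Pool.Agent.Anderson Pool.Agent.Loc Pool.Agent.Mob Pool.Agent.Helper54.Bal Pool.Agent.LE

variable {d : ℕ}

theorem sd_add_sm (a y : Site d) (ℓ : ℕ) {K : ℕ} (hy : sd 0 y ≤ K) :
    sd a (a + sm ℓ y) ≤ K * ℓ := by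
  rw [sd_le_iff] at hy ⊢
  intro i
  have h1 := hy i
  simp only [Pi.zero_apply, zero_sub, abs_neg] at h1
  have h2 : a i - (a + sm ℓ y) i = -((ℓ : ℤ) * y i) := by
    rw [Pi.add_apply]
    unfold sm
    ring
  rw [h2, abs_neg, abs_mul, Nat.abs_cast]
  push_cast
  rw [mul_comm]
  exact mul_le_mul_of_nonneg_right h1 (by positivity)

theorem mem_add_sm {a y : Site d} {ℓ K R N : ℕ} (hy : sd 0 y ≤ K) (ha : a ∈ box (0 : Site d) R)
    (hN : R + K * ℓ ≤ N) : a + sm ℓ y ∈ box (0 : Site d) N := by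
  rw [mem_box] at ha ⊢
  exact (sd_triangle 0 a _).trans ((add_le_add ha (sd_add_sm a y ℓ hy)).trans hN)

theorem sm_add (ℓ ℓ' : ℕ) (y : Site d) : sm (ℓ + ℓ') y = sm ℓ y + sm ℓ' y := by
  funext i
  rw [Pi.add_apply]
  unfold sm
  push_cast
  ring

theorem subx (nrm : NrmStmt) (avs : AvsStmt) : SubXStmt := by
  intro d K C hC hK
  set s : ℝ := √C with hs
  have hs0 : 0 < s := Real.sqrt_pos.2 hC
  have hsC : s ^ 2 = C := Real.sq_sqrt hC.le
  have hK1 : (1 : ℝ) ≤ K := by exact_mod_cast hK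
  refine ⟨s * (K + 1) + 1 + 2 * s, by positivity, fun ℓ ℓ' hℓ hℓ' => ?_⟩
  obtain ⟨R₀, hR₀⟩ := avs d (K * ℓ) (C * (K * ℓ' + 1) ^ 2) 1 one_pos
  refine ⟨R₀, fun R N hR hN Ω _ P _ D hD y hy => ?_⟩
  obtain ⟨n1, n2, n3, n4, n5, n6⟩ := nrm d Ω P R
  have hℓ0 : (0 : ℝ) < ℓ := by exact_mod_cast hℓ
  have hℓ0' : (0 : ℝ) < ℓ' := by exact_mod_cast hℓ'
  have hℓ1 : (1 : ℝ) ≤ ℓ := by exact_mod_cast hℓ
  have hRN : R ≤ N := by omega
  have hm0 : ∀ a ∈ box (0 : Site d) R, a ∈ box (0 : Site d) N := by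
    intro a ha
    rw [mem_box] at ha ⊢
    exact ha.trans hRN
  have e1 : R + K * ℓ ≤ N := by nlinarith
  have e2 : R + K * (ℓ + ℓ') ≤ N := by nlinarith
  have e3 : R + K * ℓ + K * ℓ' ≤ N := by nlinarith
  -- bound for the second moments
  have hsq : ∀ (m : ℕ) (a : Site d), 1 ≤ m → a ∈ box (0 : Site d) N →
      a + sm m y ∈ box (0 : Site d) N → ∫ ω, D ω a (a + sm m y) ^ 2 ∂P ≤ C * (K * m + 1) ^ 2 := by
    intro m a _ ha ha'
    refine (hD.sq a ha _ ha').trans ?_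
    apply mul_le_mul_of_nonneg_left _ hC.le
    have h1 : (sd a (a + sm m y) : ℝ) ≤ K * m := by exact_mod_cast sd_add_sm a y m hy
    have h0 : (0 : ℝ) ≤ sd a (a + sm m y) := by positivity
    exact pow_le_pow_left₀ (by positivity) (by linarith) 2
  -- the norms
  have hA : ∀ m : ℕ, R + K * m ≤ N → Adm P R (fun a ω => D ω a (a + sm m y)) := by
    intro m hm a ha
    exact ⟨hD.meas _ _, hD.int _ (hm0 a ha) _ (mem_add_sm hy ha hm)⟩
  have hX : ∀ m : ℕ, 1 ≤ m → m * nA P R (XX D y m) = nA P R (fun a ω => D ω a (a + sm m y)) := by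
    intro m hm
    have hm0 : (0 : ℝ) < m := by exact_mod_cast hm
    have h1 := n3 (fun a ω => D ω a (a + sm m y)) (1 / m)
    have h2 : (fun (a : Site d) ω => 1 / (m : ℝ) * D ω a (a + sm m y)) = XX D y m := by
      funext a ω
      unfold XX
      ring
    rw [h2] at h1
    rw [h1, abs_of_pos (by positivity)]
    field_simp
  have h1 : nA P R (XX D y ℓ) ≤ s * (K + 1) := by
    apply n5 _ _ (by positivity)
    intro a ha
    have h2 : ∫ ω, XX D y ℓ a ω ^ 2 ∂P = (∫ ω, D ω a (a + sm ℓ y) ^ 2 ∂P) / (ℓ : ℝ) ^ 2 := by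
      rw [← integral_div]
      apply integral_congr_ae
      refine Eventually.of_forall fun ω => ?_
      simp only
      unfold XX
      rw [div_pow]
    rw [h2, div_le_iff₀ (by positivity), mul_pow, hsC]
    refine (hsq ℓ a hℓ (hm0 a ha) (mem_add_sm hy ha e1)).trans ?_
    rw [mul_assoc]
    apply mul_le_mul_of_nonneg_left _ hC.le
    rw [← mul_pow]
    apply pow_le_pow_left₀ (by positivity)
    nlinarith
  refine ⟨by linarith, ?_⟩
  -- the four parts
  set f : Site d → Ω → ℝ := fun a ω => D ω a (a + sm (ℓ + ℓ') y) with hf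
  set g : Site d → Ω → ℝ := fun a ω => D ω a (a + sm ℓ y) with hg
  set g' : Site d → Ω → ℝ := fun a ω => D ω a (a + sm ℓ' y) with hg'
  set h : Site d → Ω → ℝ := fun a ω => D ω (a + sm ℓ y) (a + sm ℓ y + sm ℓ' y) with hh
  set r : Site d → Ω → ℝ := fun a ω => max 0 (D ω a (a + sm ℓ y + sm ℓ' y) - D ω a (a + sm ℓ y) -
    D ω (a + sm ℓ y) (a + sm ℓ y + sm ℓ' y)) with hr
  set q : Site d → Ω → ℝ := fun a ω => max 0 (-D ω a (a + sm ℓ y + sm ℓ' y)) with hq
  have hfe : ∀ a ω, f a ω = D ω a (a + sm ℓ y + sm ℓ' y) := by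
    intro a ω
    rw [hf]
    simp only
    rw [sm_add, add_assoc]
  have hmem1 : ∀ a ∈ box (0 : Site d) R, a + sm ℓ y ∈ box (0 : Site d) N :=
    fun a ha => mem_add_sm hy ha e1
  have hmem2 : ∀ a ∈ box (0 : Site d) R, a + sm ℓ y + sm ℓ' y ∈ box (0 : Site d) N := by
    intro a ha
    rw [add_assoc, ← sm_add]
    exact mem_add_sm hy ha e2
  have Ag : Adm P R g := hA ℓ e1
  have Ah : Adm P R h := fun a ha => ⟨hD.meas _ _, hD.int _ (hmem1 a ha) _ (hmem2 a ha)⟩
  have Ar : Adm P R r := by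
    intro a ha
    have i1 := hD.int _ (hm0 a ha) _ (hmem2 a ha)
    have i2 := hD.int _ (hm0 a ha) _ (hmem1 a ha)
    have i3 := hD.int _ (hmem1 a ha) _ (hmem2 a ha)
    have hm : Measurable (r a) := measurable_const.max
      (((hD.meas _ _).sub (hD.meas _ _)).sub (hD.meas _ _))
    refine ⟨hm, ?_⟩
    refine Integrable.mono' (((i1.add i2).add i3).const_mul 3) (hm.pow_const 2).aestronglyMeasurable
      (Eventually.of_forall fun ω => ?_)
    change ‖r a ω ^ 2‖ ≤ 3 * (D ω a (a + sm ℓ y + sm ℓ' y) ^ 2 + D ω a (a + sm ℓ y) ^ 2 +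
      D ω (a + sm ℓ y) (a + sm ℓ y + sm ℓ' y) ^ 2)
    rw [Real.norm_eq_abs, abs_of_nonneg (by positivity)]
    rw [hr]
    simp only
    set x := D ω a (a + sm ℓ y + sm ℓ' y)
    set u := D ω a (a + sm ℓ y)
    set v := D ω (a + sm ℓ y) (a + sm ℓ y + sm ℓ' y)
    have h2 : (max 0 (x - u - v)) ^ 2 ≤ (x - u - v) ^ 2 := by
      rcases le_total 0 (x - u - v) with h3 | h3
      · rw [max_eq_right h3]
      · rw [max_eq_left h3, sq, zero_mul]
        exact sq_nonneg _
    nlinarith [sq_nonneg (x + u), sq_nonneg (x + v), sq_nonneg (u - v)]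
  have Aq : Adm P R q := by
    intro a ha
    have i1 := hD.int _ (hm0 a ha) _ (hmem2 a ha)
    have hm : Measurable (q a) := measurable_const.max (hD.meas _ _).neg
    refine ⟨hm, ?_⟩
    refine Integrable.mono' i1 (hm.pow_const 2).aestronglyMeasurable
      (Eventually.of_forall fun ω => ?_)
    change ‖(max 0 (-D ω a (a + sm ℓ y + sm ℓ' y))) ^ 2‖ ≤ D ω a (a + sm ℓ y + sm ℓ' y) ^ 2
    rw [Real.norm_eq_abs, abs_of_nonneg (sq_nonneg _)]
    set x := D ω a (a + sm ℓ y + sm ℓ' y)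
    rcases le_total 0 (-x) with h3 | h3
    · rw [max_eq_right h3, neg_sq]
    · rw [max_eq_left h3]
      have := sq_nonneg x
      simpa using this
  have habs : ∀ u : Site d → Ω → ℝ, Adm P R u → Adm P R (fun a ω => |u a ω|) := by
    intro u hu a ha
    refine ⟨(hu a ha).1.abs, ?_⟩
    simp only [sq_abs]
    exact (hu a ha).2
  have nabs : ∀ u : Site d → Ω → ℝ, nA P R (fun a ω => |u a ω|) = nA P R u := by
    intro u
    unfold nA
    simp only [sq_abs]
  have nr : nA P R r ≤ s := by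
    apply n5 _ _ hs0.le
    intro a ha
    rw [hsC]
    exact hD.tri _ (hm0 a ha) _ (hmem1 a ha) _ (hmem2 a ha)
  have nq : nA P R q ≤ s := by
    apply n5 _ _ hs0.le
    intro a ha
    rw [hsC]
    exact hD.neg _ (hm0 a ha) _ (hmem2 a ha)
  have nh : nA P R h ≤ nA P R g' + 1 := by
    have hav := hR₀ R hR (fun a => ∫ ω, D ω a (a + sm ℓ' y) ^ 2 ∂P) (sm ℓ y) (by
      have := sd_add_sm (0 : Site d) y ℓ hy
      rwa [zero_add] at this) (by
      intro a ha
      have ha0 : a ∈ box (0 : Site d) N := by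
        rw [mem_box] at ha ⊢
        exact ha.trans e1
      have ha1 : a + sm ℓ' y ∈ box (0 : Site d) N := mem_add_sm hy ha e3
      have h0 : 0 ≤ ∫ ω, D ω a (a + sm ℓ' y) ^ 2 ∂P := integral_nonneg fun ω => sq_nonneg _
      rw [abs_of_nonneg h0]
      exact hsq ℓ' a hℓ' ha0 ha1)
    unfold nA
    rw [hh, hg']
    simp only
    set A := Av R (fun a : Site d => ∫ ω, D ω (a + sm ℓ y) (a + sm ℓ y + sm ℓ' y) ^ 2 ∂P)
    set B := Av R (fun a : Site d => ∫ ω, D ω a (a + sm ℓ' y) ^ 2 ∂P)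
    have hAB : A ≤ B + 1 := by
      have := (abs_le.1 hav).2
      linarith
    have hB0 : 0 ≤ B := by
      change 0 ≤ Av R _
      unfold Av
      apply div_nonneg (Finset.sum_nonneg fun a _ => integral_nonneg fun ω => sq_nonneg _)
      positivity
    calc √A ≤ √(B + 1) := Real.sqrt_le_sqrt hAB
      _ ≤ √((√B + 1) ^ 2) := by
          apply Real.sqrt_le_sqrt
          have h4 := Real.sq_sqrt hB0
          have h5 := Real.sqrt_nonneg B
          nlinarith
      _ = √B + 1 := Real.sqrt_sq (by positivity)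
  have step1 := n1 _ _ (habs g Ag) (habs h Ah)
  have step2 := n1 _ _ step1.1 Ar
  have step3 := n1 _ _ step2.1 Aq
  have hle : ∀ a ∈ box (0 : Site d) R, ∀ ω, |f a ω| ≤ |(|g a ω| + |h a ω| + r a ω + q a ω)| := by
    intro a _ ω
    have hr0 : 0 ≤ r a ω := le_max_left _ _
    have hq0 : 0 ≤ q a ω := le_max_left _ _
    rw [abs_of_nonneg (by positivity : 0 ≤ |g a ω| + |h a ω| + r a ω + q a ω), hfe]
    set x := D ω a (a + sm ℓ y + sm ℓ' y)
    have h6 : x - g a ω - h a ω ≤ r a ω := le_max_right _ _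
    have h7 : -x ≤ q a ω := le_max_right _ _
    have h8 := le_abs_self (g a ω)
    have h9 := le_abs_self (h a ω)
    have h10 := abs_nonneg (g a ω)
    have h11 := abs_nonneg (h a ω)
    rw [abs_le]
    constructor <;> linarith
  have hfin := n2 f _ step3.1 hle
  have t1 := step1.2.1
  have t2 := step2.2.1
  have t3 := step3.2.1
  rw [nabs g, nabs h] at t1
  have hXf : ((ℓ + ℓ' : ℕ) : ℝ) * nA P R (XX D y (ℓ + ℓ')) = nA P R f := hX (ℓ + ℓ') (by omega)
  have hXg : (ℓ : ℝ) * nA P R (XX D y ℓ) = nA P R g := hX ℓ hℓ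
  have hXg' : (ℓ' : ℝ) * nA P R (XX D y ℓ') = nA P R g' := hX ℓ' hℓ'
  push_cast at hXf
  rw [hXf, hXg, hXg']
  have : 0 ≤ s * (K + 1) := by positivity
  linarith

end Pool.Agent.LE.H77S
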