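import Pool.Agent.LE.StmtsA

/-!
# AVS: averages over large cubes are almost shift invariant
-/

set_option autoImplicit false

open MeasureTheory ProbabilityTheory Function Filter Topology

open scoped ENNReal BigOperators

noncomputable section

namespace Pool.Agent.LE.H77

open Pool.Agent.Anderson Pool.Agent.Loc Pool.Agent.Mob Pool.Agent.LE

theorem memb {d : ℕ} {x : Site d} {n : ℕ} {y : Site d} :
    y ∈ box x n ↔ ∀ i, |y i - x i| ≤ n := by
  unfold box
  rw [Finset.mem_Icc]
  constructor
  · rintro ⟨h1, h2⟩ i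
    have := h1 i
    have := h2 i
    rw [abs_le]
    constructor <;> simp only at * <;> linarith
  · intro h
    constructor
    · intro i
      have := abs_le.1 (h i)
      simp only; linarith
    · intro i
      have := abs_le.1 (h i)
      simp only; linarith

theorem sd_zero_le {d : ℕ} {b : Site d} {n : ℕ} (h : sd 0 b ≤ n) (i : Fin d) : |b i| ≤ n := by
  unfold sd at h
  rw [Finset.sup_le_iff] at h
  have h1 := h i (Finset.mem_univ i)
  simp only [Pi.zero_apply, zero_sub, Int.natAbs_neg] at h1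
  rw [Int.abs_eq_natAbs]
  exact_mod_cast h1

theorem avs_lim (d b₀ : ℕ) (B : ℝ) :
    Tendsto (fun R : ℕ => B * ((1 + 2 * b₀ / (2 * (R : ℝ) + 1)) ^ d -
      (1 - 2 * b₀ / (2 * (R : ℝ) + 1)) ^ d)) atTop (𝓝 0) := by
  have h1 : Tendsto (fun R : ℕ => (2 * (b₀ : ℝ)) / (2 * (R : ℝ) + 1)) atTop (𝓝 0) := by
    apply Tendsto.div_atTop tendsto_const_nhds
    apply tendsto_atTop_add_const_right
    exact Tendsto.const_mul_atTop (show (0 : ℝ) < 2 by norm_num) tendsto_natCast_atTop_atTop
  have h2 : Tendsto (fun R : ℕ => B * ((1 + 2 * b₀ / (2 * (R : ℝ) + 1)) ^ d -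
      (1 - 2 * b₀ / (2 * (R : ℝ) + 1)) ^ d)) atTop (𝓝 (B * ((1 + 0) ^ d - (1 - 0) ^ d))) :=
    ((((h1.const_add 1).pow d).sub ((h1.const_sub 1).pow d)).const_mul B)
  simpa using h2

theorem avs : AvsStmt := by
  intro d b₀ B ε hε
  obtain ⟨R₁, hR₁⟩ := eventually_atTop.1 ((avs_lim d b₀ B).eventually (gt_mem_nhds hε))
  refine ⟨max R₁ b₀, fun R hR f b hb hf => ?_⟩
  have hRb : b₀ ≤ R := le_trans (le_max_right _ _) hR
  have hbi := sd_zero_le hb
  have hA : box (0 : Site d) R ⊆ box 0 (R + b₀) := by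
    intro a ha
    rw [memb] at ha ⊢
    intro i
    have := ha i
    push_cast
    linarith [show (0 : ℤ) ≤ b₀ by positivity]
  have hA' : box b R ⊆ box 0 (R + b₀) := by
    intro a ha
    rw [memb] at ha ⊢
    intro i
    have h1 := abs_le.1 (ha i)
    have h2 := abs_le.1 (hbi i)
    rw [abs_le]
    push_cast
    simp only [Pi.zero_apply]
    constructor <;> linarith
  have hS : box (0 : Site d) (R - b₀) ⊆ box 0 R := by
    intro a ha
    rw [memb] at ha ⊢
    intro i
    have := ha i
    rw [Nat.cast_sub hRb] at this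
    linarith [show (0 : ℤ) ≤ b₀ by positivity]
  have hS' : box (0 : Site d) (R - b₀) ⊆ box b R := by
    intro a ha
    rw [memb] at ha ⊢
    intro i
    have h1 := abs_le.1 (ha i)
    have h2 := abs_le.1 (hbi i)
    rw [Nat.cast_sub hRb] at h1
    simp only [Pi.zero_apply] at h1
    rw [abs_le]
    constructor <;> linarith
  have hsum : ∑ a ∈ box (0 : Site d) R, f (a + b) = ∑ a ∈ box b R, f a := by
    refine Finset.sum_nbij' (fun a => a + b) (fun a => a - b) ?_ ?_ ?_ ?_ ?_
    · intro a ha
      rw [memb] at ha ⊢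
      intro i
      have := ha i
      simpa using this
    · intro a ha
      rw [memb] at ha ⊢
      intro i
      have := ha i
      simpa using this
    · intro a _
      simp
    · intro a _
      simp
    · intro a _
      rfl
  have hB : 0 ≤ B := by
    have h0 : (0 : Site d) ∈ box 0 (R + b₀) := by
      rw [memb]
      intro i
      simp
      positivity
    exact le_trans (abs_nonneg _) (hf 0 h0)
  have hind : ∀ A : Finset (Site d), A ⊆ box 0 (R + b₀) →
      ∑ a ∈ A, f a = ∑ a ∈ box (0 : Site d) (R + b₀), if a ∈ A then f a else 0 := by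
    intro A hA
    rw [← Finset.sum_filter]
    apply Finset.sum_congr _ (fun _ _ => rfl)
    ext a
    rw [Finset.mem_filter]
    exact ⟨fun h => ⟨hA h, h⟩, fun h => h.2⟩
  have hdiff : |∑ a ∈ box b R, f a - ∑ a ∈ box (0 : Site d) R, f a| ≤
      B * (((box (0 : Site d) (R + b₀)) \ (box 0 (R - b₀))).card : ℝ) := by
    rw [hind _ hA', hind _ hA, ← Finset.sum_sub_distrib]
    refine le_trans (Finset.abs_sum_le_sum_abs _ _) ?_
    have h3 : ∀ a ∈ box (0 : Site d) (R + b₀),
        |(if a ∈ box b R then f a else 0) - (if a ∈ box (0 : Site d) R then f a else 0)| ≤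
          if a ∈ box (0 : Site d) (R - b₀) then 0 else B := by
      intro a ha
      have hfa := hf a ha
      by_cases h4 : a ∈ box (0 : Site d) (R - b₀)
      · rw [if_pos h4, if_pos (hS h4), if_pos (hS' h4), sub_self, abs_zero]
      · rw [if_neg h4]
        by_cases h5 : a ∈ box b R
        · by_cases h6 : a ∈ box (0 : Site d) R
          · rw [if_pos h5, if_pos h6, sub_self, abs_zero]; exact hB
          · rw [if_pos h5, if_neg h6, sub_zero]; exact hfa
        · by_cases h6 : a ∈ box (0 : Site d) R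
          · rw [if_neg h5, if_pos h6, zero_sub, abs_neg]; exact hfa
          · rw [if_neg h5, if_neg h6, sub_self, abs_zero]; exact hB
    refine le_trans (Finset.sum_le_sum h3) ?_
    rw [← Finset.sum_filter_add_sum_filter_not (box (0 : Site d) (R + b₀))
      (fun a => a ∈ box (0 : Site d) (R - b₀))]
    have h10 : ∑ a ∈ (box (0 : Site d) (R + b₀)).filter (fun a => a ∈ box (0 : Site d) (R - b₀)),
        (if a ∈ box (0 : Site d) (R - b₀) then 0 else B) =
        ∑ a ∈ (box (0 : Site d) (R + b₀)).filter (fun a => a ∈ box (0 : Site d) (R - b₀)),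
        (0 : ℝ) := Finset.sum_congr rfl fun a ha => by
      rw [Finset.mem_filter] at ha
      exact if_pos ha.2
    have h11 : ∑ a ∈ (box (0 : Site d) (R + b₀)).filter (fun a => ¬ a ∈ box (0 : Site d) (R - b₀)),
        (if a ∈ box (0 : Site d) (R - b₀) then 0 else B) =
        ∑ a ∈ (box (0 : Site d) (R + b₀)).filter (fun a => ¬ a ∈ box (0 : Site d) (R - b₀)),
        B := Finset.sum_congr rfl fun a ha => by
      rw [Finset.mem_filter] at ha
      exact if_neg ha.2
    rw [h10, h11]
    rw [Finset.sum_const_zero, zero_add, Finset.sum_const, nsmul_eq_mul, mul_comm]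
    apply le_of_eq
    have h7 : (box (0 : Site d) (R + b₀)).filter (fun a => ¬ a ∈ box (0 : Site d) (R - b₀)) =
        (box (0 : Site d) (R + b₀)) \ (box 0 (R - b₀)) := by
      ext a
      rw [Finset.mem_filter, Finset.mem_sdiff]
    rw [h7]
  have hcard : (((box (0 : Site d) (R + b₀)) \ (box 0 (R - b₀))).card : ℝ) =
      (2 * (R : ℝ) + 1 + 2 * b₀) ^ d - (2 * (R : ℝ) + 1 - 2 * b₀) ^ d := by
    rw [Finset.card_sdiff_of_subset (hS.trans hA), Nat.cast_sub (Finset.card_le_card (hS.trans hA)),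
      card_box, card_box]
    push_cast [Nat.cast_sub hRb]
    ring
  unfold Av
  rw [← sub_div, hsum, abs_div]
  have hp : (0 : ℝ) < (2 * (R : ℝ) + 1) ^ d := by positivity
  rw [abs_of_pos hp, div_le_iff₀ hp]
  refine le_trans hdiff ?_
  rw [hcard]
  have h8 := (hR₁ R (le_trans (le_max_left _ _) hR)).le
  have h9 : B * ((2 * (R : ℝ) + 1 + 2 * b₀) ^ d - (2 * (R : ℝ) + 1 - 2 * b₀) ^ d) =
      (B * ((1 + 2 * b₀ / (2 * (R : ℝ) + 1)) ^ d -
      (1 - 2 * b₀ / (2 * (R : ℝ) + 1)) ^ d)) * (2 * (R : ℝ) + 1) ^ d := by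
    have hq : (2 * (R : ℝ) + 1) ≠ 0 := by positivity
    rw [mul_assoc, sub_mul, ← mul_pow, ← mul_pow]
    rw [add_mul, sub_mul, div_mul_cancel₀ _ hq, one_mul]
  rw [h9]
  exact mul_le_mul_of_nonneg_right h8 hp.le

end Pool.Agent.LE.H77
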